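import Mathlib
import Pool.Agent.W626.AH.Stm

/-!
# Project AH, part HAC: the action on the injective hull is acylindrical at the scale `7`
-/

set_option autoImplicit false

namespace Pool.Agent.W253.AH

open Pool.Agent.W626.AH

theorem pd_nd {G : Type} [Group G] {ℓ : G → ℝ} {R M : ℕ} {g : G} {q B : ℕ}
    (h : GCond ℓ R M g q B) : PD (nd ℓ) where
  self x := by unfold nd; rw [inv_mul_cancel]; exact h.one
  symm x y := by
    unfold nd
    have e : y⁻¹ * x = (x⁻¹ * y)⁻¹ := by group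
    rw [e, h.inv]
  tri x y z := by
    unfold nd
    have e : x⁻¹ * z = (x⁻¹ * y) * (y⁻¹ * z) := by group
    rw [e]
    exact h.mul _ _

theorem main : S_hm → S_vup → S_hac := by
  intro _ hvup G _ ℓ R M g q B hG f h hfh
  have hPD := pd_nd hG
  -- the points
  have hpt : ∀ f : Hull (nd ℓ), ∃ y : G, f.1 1 + f.1 y < nd ℓ 1 y + 1 := fun f =>
    f.2.2 1 1 one_pos
  have hnn : ∀ (f : Hull (nd ℓ)) (x : G), 0 ≤ f.1 x := by
    intro f x
    have h1 := f.2.1 x x
    rw [hPD.self] at h1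
    linarith
  obtain ⟨y, hy⟩ := hpt f
  obtain ⟨y', hy'⟩ := hpt h
  have hVP : ∀ (f : Hull (nd ℓ)) (y : G), f.1 1 + f.1 y < nd ℓ 1 y + 1 →
      VP (nd ℓ) ((1, y, f.1 1, f.1 y) : G × G × ℝ × ℝ) := by
    intro f y hy
    refine ⟨hnn f 1, hnn f y, ?_⟩
    have h1 := f.2.1 1 y
    simp only
    rw [abs_lt]
    constructor <;> linarith
  have hmv : ∀ (a : G) (f : Hull (nd ℓ)) (y : G), f.1 1 + f.1 y < nd ℓ 1 y + 1 →
      vd (nd ℓ) ((1, y, f.1 1, f.1 y) : G × G × ℝ × ℝ) (mv a (1, y, f.1 1, f.1 y)) ≤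
        hd f (a • f) := by
    intro a f y hy
    have e1 : (a • f).1 (a * 1) = f.1 1 := by
      rw [smul_val, inv_mul_cancel_left]
    have e2 : (a • f).1 (a * y) = f.1 y := by
      rw [smul_val, inv_mul_cancel_left]
    have h1 := (hvup G (nd ℓ) hPD hG.hyp f (a • f) 1 y (a * 1) (a * y) hy.le (by
      rw [e1, e2, nd_mul]; exact hy.le)).1
    rw [e1, e2] at h1
    exact h1
  by_contra hcon
  rw [not_le] at hcon
  have h1 : ((M + 1 : ℕ) : ℕ∞) ≤ {a : G | hd f (a • f) ≤ 7 ∧ hd h (a • h) ≤ 7}.encard := by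
    push_cast
    exact Order.add_one_le_of_lt hcon
  obtain ⟨t, hts, htc⟩ := Set.exists_subset_encard_eq h1
  have hfin : t.Finite := Set.finite_of_encard_eq_coe htc
  have hcard : M < hfin.toFinset.card := by
    have h2 : ((hfin.toFinset.card : ℕ) : ℕ∞) = ((M + 1 : ℕ) : ℕ∞) := by
      rw [← htc, hfin.encard_eq_coe_toFinset_card]
    have h3 : hfin.toFinset.card = M + 1 := by exact_mod_cast h2
    omega
  have hvd : (R : ℝ) < vd (nd ℓ) ((1, y, f.1 1, f.1 y) : G × G × ℝ × ℝ)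
      (1, y', h.1 1, h.1 y') := by
    have h2 := (hvup G (nd ℓ) hPD hG.hyp f h 1 y 1 y' hy.le hy'.le).2
    linarith
  obtain ⟨a, haT, ha⟩ := hG.acy _ _ (hVP f y hy) (hVP h y' hy') hvd hfin.toFinset hcard
  have hat : a ∈ t := by simpa using haT
  obtain ⟨k1, k2⟩ := hts hat
  rcases ha with ha | ha
  · have := hmv a f y hy
    linarith
  · have := hmv a h y' hy'
    linarith

end Pool.Agent.W253.AH
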